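import Pool.Agent.V7H14.OW.Num

/-!
# One random word: every subcomplex of every complex of ribbon disc type built from it is aspherical

The page asks whether every connected subcomplex `L` of a finite contractible 2-complex `K` is
aspherical. The result `EverySubcomplex` of the starting library shows this for all subcomplexes of
the complexes of ribbon disc type

  `P_j = x_(j+1)^(±1) · ∏_(k < c j) s_(j,k) x_(a(j,k))^(±1) s_(j,k)⁻¹`, `a(j,k) ≤ j`, and `R_t = s_t⁻¹ w_t`

(`wrel`), with the additional relator `x_0`, for all but a small proportion of the families of words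
`w_t` of given number and given lengths: the family of words is chosen first, and the exceptional set
depends on the number and the lengths of the words.

Here ONE infinite random word is chosen (independent uniform letters). Almost surely, for all large
`N`, the conclusion holds for ALL families of pairwise disjoint subwords of its initial subword of
length `N`, of length at least `624 (m + 1) log N` each: for all numbers `c j` of conjugates, all places
and all lengths of the subwords, chosen after the random word and depending on it in an arbitrary way,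
and for all signs and all choices of the generators `x_(a(j,k))`. The probability that this fails for `N`
is at most `2^(m+89) / N²`. The words `w_t` are the free reductions of the subwords.

Proof: it suffices to control single subwords and pairs of subwords (`hereditary_of`); there are at
most `(N+1)^4` pairs of subwords, and by the count of the starting library (`WX.rare`) each of them is
bad with probability at most a constant times `N⁻⁶`; then the lemma of Borel and Cantelli.
-/

set_option autoImplicit false

namespace Pool.Agent.Results.MP_6de9fc_gt.EverySubcomplexOneWordH14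

open MeasureTheory Filter
open Pool.Agent.N993.WT (DR Gen word)
open Pool.Agent.N993.WV (left)
open Pool.Agent.N993.WX (wrel hat)
open Pool.Agent.V7H14.OW

/-- For ALL families of pairwise disjoint subwords of the word `x` before the place `N` of length at
least `624 (m + 1) log N`, all signs `ε` and all `a` with `a(j,k) ≤ j`: the relators `wrel`, built from the
free reductions of the subwords, present together with `x_0` the trivial group, and for ALL sets `T` of
relators `wrel` the presentations `T` and `hat T` are diagrammatically reducible. -/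
def AllAt (m : ℕ) (x : ℕ → Fin (m + 1) × Bool) (N : ℕ) : Prop :=
  ∀ (c : Fin m → ℕ), (∀ j, 0 < c j) → ∀ p ℓ : ((j : Fin m) × Fin (c j)) → ℕ,
    Windows p ℓ N (624 * (m + 1) * Real.log N) →
    ∀ (ε : Fin m → Bool) (a : ((j : Fin m) × Fin (c j)) → Fin (m + 1) × Bool),
      (∀ j k, (a ⟨j, k⟩).1 ≤ j.castSucc) →
      (∀ z : PresentedGroup (Set.range (fun e => word
          (wrel ε a (fun t => FreeGroup.reduce (win x (p t) (ℓ t))) e)) ∪
        {(FreeGroup.of (Sum.inl 0) : FreeGroup (Gen (m + 1) c))}), z = 1) ∧
      ∀ T : Set (Fin m ⊕ ((j : Fin m) × Fin (c j))),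
        DR (fun e : T => wrel ε a (fun t => FreeGroup.reduce (win x (p t) (ℓ t))) e) ∧
        DR (fun e : left a T => hat ε a (fun t => FreeGroup.reduce (win x (p t) (ℓ t))) T e)

/-- the deterministic criterion -/
lemma allAt_of {m : ℕ} (hm : 1 ≤ m) {x : ℕ → Fin (m + 1) × Bool} {N : ℕ}
    (h : Good x N (mu N) (27 * (mu N + 1)) (624 * (m + 1) * Real.log N)) : AllAt m x N := by
  intro c hc p ℓ hw ε a ha
  have hher := hereditary_of h.1 h.2 p ℓ hw
  refine ⟨Pool.Agent.N993.WX.wrel_triv ε a ha _, fun T => ⟨?_, ?_⟩⟩
  · exact Pool.Agent.N993.WX.wrel_dr hm hc ε a _ T (mu N) (mu_pos N) hher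
  · exact Pool.Agent.N993.WX.hat_dr ε a _ T Pool.Agent.N776.WV.t_TRANS Pool.Agent.N7.WV.t_once ha
      (mu N) (mu_pos N) hher

lemma pow_le (N : ℕ) (hN : 1 ≤ N) : (2 : ℝ) ^ (27 * (mu N + 1)) ≤ 2 ^ 81 * (N : ℝ) ^ 150 := by
  refine two_pow_le N _ 150 81 216 hN ?_ ?_
  · have := mu_le N hN
    push_cast
    linarith
  · have := Real.log_two_lt_d9
    norm_num
    linarith

/-- **One random word: every subcomplex of every complex of ribbon disc type built from it is aspherical.** -/
theorem result (m : ℕ) (hm : 1 ≤ m) {Ω : Type} [MeasurableSpace Ω] (P : Measure Ω)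
    (ξ : ℕ → Ω → Fin (m + 1) × Bool) (h : Letters P ξ) :
    (∀ N : ℕ, 1 ≤ N → P {ω | ¬ AllAt m (fun i => ξ i ω) N} ≤ ENNReal.ofReal (2 ^ (m + 89) / (N : ℝ) ^ 2)) ∧
    ∀ᵐ ω ∂P, ∀ᶠ N : ℕ in atTop, AllAt m (fun i => ξ i ω) N := by
  constructor
  · intro N hN
    have h1 : {ω | ¬ AllAt m (fun i => ξ i ω) N} ⊆
        {ω | ¬ Good (fun i => ξ i ω) N (mu N) (27 * (mu N + 1)) (624 * (m + 1) * Real.log N)} :=
      fun ω hω hgood => hω (allAt_of hm hgood)
    refine (measure_mono h1).trans ((bad_le (by omega) h 150 N (mu N) (27 * (mu N + 1)) (2 ^ 81) _ hN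
      (mu_pos N) (pow_mu N hN) (pow_le N hN) (le_of_eq ?_)).trans (ENNReal.ofReal_le_ofReal ?_))
    · push_cast
      ring
    · have h2 : (2 : ℝ) ^ (m + 89) = 2 ^ (m + 1) * 2 ^ 88 := by
        rw [← pow_add]
      rw [h2]
      gcongr
      norm_num
  · filter_upwards [ae_good (by omega) h 150 (2 ^ 81) mu (fun N => 27 * (mu N + 1)) mu_pos pow_mu pow_le]
      with ω hω
    filter_upwards [hω] with N hN
    refine allAt_of hm ?_
    have h1 : (624 * ((m : ℝ) + 1) * Real.log N) = 4 * ((m + 1 : ℕ) : ℝ) * ((150 : ℕ) + 6) * Real.log N := by
      push_cast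
      ring
    rw [h1]
    exact hN

end Pool.Agent.Results.MP_6de9fc_gt.EverySubcomplexOneWordH14
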