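import Pool.Agent.V7H14.OW.Num
import Pool.Agent.N993.WU.Fin

/-!
# One random word: all modifications of contractible 2-complexes by its subwords

The page asks whether every connected subcomplex `L` of a finite contractible 2-complex `K` is
aspherical. The result `RandomConjugations` of the starting library modifies an arbitrary finite
contractible 2-complex `K'` (with one of its 2-cells `W` singled out): the other relators `U_j` are
multiplied by conjugates `g v g⁻¹` of consequences `v` of `W` and of the previous `U_i`, and the new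
complex `K` is again contractible; for all but a small proportion of the families of reduced words `g`
of given number and lengths all subcomplexes of `K` without the 2-cell `W` are diagrammatically
reducible.

Here ONE infinite random word is chosen (independent uniform letters). Almost surely, for every `Λ` and
all large `N`, this holds for ALL families of pairwise disjoint subwords of its initial subword of
length `N` of length at least `4 n (156 + 7 Λ) log N` each (the words `g` are their free reductions), for
ALL numbers `m` of relators, all numbers `c j` of conjugates, all places and lengths of the subwords,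
chosen after the random word and depending on it in an arbitrary way, and ALL cyclically reduced words
`U_j`, `v_t` of length at most `Λ log N`: so for all complexes `K'` whose relators have length at most
`Λ log N`. The probability that this fails for `N` is at most `2^(n+79) / N²`.

Proof: it suffices to control single subwords and pairs of subwords (`hereditary_of`); there are at
most `(N+1)^4` pairs of subwords, and by the count of the starting library (`WX.rare`) each of them is
bad with probability at most a constant times `N⁻⁶`; then the lemma of Borel and Cantelli and the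
criterion of `RandomConjugations`.
-/

set_option autoImplicit false

namespace Pool.Agent.Results.MP_6de9fc_gt.ModificationsOneWordH14

open MeasureTheory Filter
open Pool.Agent.N993.WT (DR Gen word)
open Pool.Agent.N993.WU
open Pool.Agent.N993.WX (frw red)
open Pool.Agent.V7H14.OW

/-- For ALL families of pairwise disjoint subwords of the word `x` before the place `N` of length at
least `4 n (156 + 7 Λ) log N` with free reductions `g t`, and all nonempty cyclically reduced words `U j`,
`v t` of length at most `Λ log N`: all subfamilies of the presentation `rel U v g` are diagrammatically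
reducible, and if the `v_(j,k)` are consequences of `W` and the `U_i`, `i < j`, and `W` and the `U_i` present
the trivial group, then so does `rel U v g` with the additional relator `W`. -/
def ModAt (n Λ : ℕ) (x : ℕ → Fin n × Bool) (N : ℕ) : Prop :=
  ∀ (m : ℕ) (c : Fin m → ℕ), (∀ j, 0 < c j) → ∀ p ℓ : ((j : Fin m) × Fin (c j)) → ℕ,
    Windows p ℓ N (4 * n * (156 + 7 * Λ) * Real.log N) →
    ∀ (U : Fin m → List (Fin n × Bool)) (v : ((j : Fin m) × Fin (c j)) → List (Fin n × Bool)),
      (∀ j, CR (U j) ∧ ((U j).length : ℝ) ≤ Λ * Real.log N) →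
      (∀ t, CR (v t) ∧ ((v t).length : ℝ) ≤ Λ * Real.log N) →
      (∀ T : Set (Fin m ⊕ ((j : Fin m) × Fin (c j))),
        DR (fun e : T => rel U v (fun t => frw (win x (p t) (ℓ t))) e)) ∧
      ∀ W : FreeGroup (Fin n),
        (∀ j k, word (v ⟨j, k⟩) ∈ Subgroup.normalClosure ({W} ∪ {y | ∃ i < j, y = word (U i)})) →
        Subgroup.normalClosure ({W} ∪ Set.range fun i => word (U i)) = ⊤ →
        ∀ z : PresentedGroup (Set.range (fun e => word (rel U v (fun t => frw (win x (p t) (ℓ t))) e)) ∪
          {(FreeGroup.map Sum.inl W : FreeGroup (Gen n c))}), z = 1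

/-- the required length of the reduced words -/
noncomputable def len (Λ N : ℕ) : ℕ := 9 * (3 * mu N + ⌊(Λ : ℝ) * Real.log N⌋₊ + 2)

/-- the deterministic criterion -/
lemma modAt_of {n Λ : ℕ} (hn : 2 ≤ n) {x : ℕ → Fin n × Bool} {N : ℕ}
    (h : Good x N (mu N) (len Λ N) (4 * n * (156 + 7 * Λ) * Real.log N)) : ModAt n Λ x N := by
  intro m c hc p ℓ hw U v hU hv
  have hher := hereditary_of h.1 h.2 p ℓ hw
  obtain ⟨h1, h2⟩ := hher Finset.univ (by simpa using hn)
  have h3 : ∀ t, ((win x (p t) (ℓ t)).filter fun y => y.1 ∈ (Finset.univ : Finset (Fin n))) =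
      win x (p t) (ℓ t) := by
    intro t
    simp
  refine ⟨fun T => ?_, fun W hW hall => s_triv n m c W U v _ _ hW hall⟩
  refine deterministic s_dis s_norm hc _ (mu N) ⌊(Λ : ℝ) * Real.log N⌋₊ (mu_pos N) (fun t => ?_) _
    (Pool.Agent.N993.WX.noRep_frw _ _ h3 (mu N) h2) U v (fun j => ⟨(hU j).1, Nat.le_floor (hU j).2⟩)
    (fun t => ⟨(hv t).1, Nat.le_floor (hv t).2⟩) T
  have h4 := h1 t
  unfold red at h4
  rw [h3] at h4
  exact h4

lemma pow_le (Λ N : ℕ) (hN : 1 ≤ N) : (2 : ℝ) ^ len Λ N ≤ 2 ^ 72 * (N : ℝ) ^ (150 + 7 * Λ) := by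
  have hN1 : (1 : ℝ) ≤ N := by exact_mod_cast hN
  have hlog : 0 ≤ Real.log N := Real.log_nonneg hN1
  refine two_pow_le N _ (150 + 7 * Λ) 72 (216 + 9 * Λ) hN ?_ ?_
  · have h1 := mu_le N hN
    have h2 : (⌊(Λ : ℝ) * Real.log N⌋₊ : ℝ) ≤ Λ * Real.log N := Nat.floor_le (by positivity)
    unfold len
    push_cast
    linarith
  · have h1 := Real.log_two_lt_d9
    have h2 : (0 : ℝ) ≤ Λ := Nat.cast_nonneg Λ
    push_cast
    nlinarith

/-- **One random word: all modifications of contractible 2-complexes by its subwords.** -/
theorem result (n : ℕ) (hn : 2 ≤ n) {Ω : Type} [MeasurableSpace Ω] (P : Measure Ω)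
    (ξ : ℕ → Ω → Fin n × Bool) (h : Letters P ξ) :
    (∀ Λ N : ℕ, 1 ≤ N → P {ω | ¬ ModAt n Λ (fun i => ξ i ω) N} ≤ ENNReal.ofReal (2 ^ (n + 79) / (N : ℝ) ^ 2)) ∧
    ∀ᵐ ω ∂P, ∀ Λ : ℕ, ∀ᶠ N : ℕ in atTop, ModAt n Λ (fun i => ξ i ω) N := by
  constructor
  · intro Λ N hN
    have h1 : {ω | ¬ ModAt n Λ (fun i => ξ i ω) N} ⊆
        {ω | ¬ Good (fun i => ξ i ω) N (mu N) (len Λ N) (4 * n * (156 + 7 * Λ) * Real.log N)} :=
      fun ω hω hgood => hω (modAt_of hn hgood)
    refine (measure_mono h1).trans ((bad_le hn h (150 + 7 * Λ) N (mu N) (len Λ N) (2 ^ 72) _ hN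
      (mu_pos N) (pow_mu N hN) (pow_le Λ N hN) (le_of_eq ?_)).trans (ENNReal.ofReal_le_ofReal ?_))
    · push_cast
      ring
    · have h2 : (2 : ℝ) ^ (n + 79) = 2 ^ n * 2 ^ 79 := by
        rw [← pow_add]
      rw [h2]
      gcongr
      norm_num
  · rw [ae_all_iff]
    intro Λ
    filter_upwards [ae_good hn h (150 + 7 * Λ) (2 ^ 72) mu (len Λ) mu_pos pow_mu (pow_le Λ)] with ω hω
    filter_upwards [hω] with N hN
    refine modAt_of hn ?_
    have h1 : (4 * (n : ℝ) * (156 + 7 * Λ) * Real.log N) =
        4 * (n : ℝ) * (((150 + 7 * Λ : ℕ) : ℝ) + 6) * Real.log N := by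
      push_cast
      ring
    rw [h1]
    exact hN

end Pool.Agent.Results.MP_6de9fc_gt.ModificationsOneWordH14
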