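import Pool.Agent.V7H25.Asp.Fin

/-!
# Asphericity of subcomplexes of contractible 2-complexes and ordered actions

Definitions (`Pool.Agent.R655.LI.Defs`, `.Asph`, `Pool.Agent.V7H25.Asp.Rk`, `.Fin`):

* `Cx`: a 2-complex with one vertex, 1-cells `V`, 2-cells `R`, attaching words `r : R → FreeGroup V`;
  `K.Pi` its fundamental group; `K.IsFin`: finitely many cells; `L.Contractible`: `π₁(L) = 1` and the
  integral boundary operator `C₂ → C₁` is injective; `Sub K L`: `K` is a subcomplex of `L`;
* `Asph K`: the boundary operator `C₂ → C₁` of the universal covering, given by the Fox derivatives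
  with values in `ℤ[π₁(K)]`, is injective, i.e. `π₂(K) = 0`;
* `betti K`: the rank of the abelian group `π₁(K)^ab = H₁(K)`;
* `OrderedBy G n`: `G` acts on a totally ordered set `X`, preserving the order; a finite family `s`
  generates `G`; there is `x₀` with `x₀ < s_j x₀` for all `j`; and every member of `s` is joined with
  one of at most `n` members of `s` by a path of the Cayley graph of `(G, s)` in the cone
  `{g | x₀ < g x₀}`;
* `LeftOrderable G`: there is a left invariant total order; `GenBy G n`: `G` is generated by `n`
  elements; `NoZeroDiv G`: if `α ∈ ℂ[G]` and `f ∈ ℓ²(G)` are nonzero then so is `α * f`.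
-/

set_option autoImplicit false

namespace Pool.Agent.Results.MP_6de9fc_gt.OrderedActionsAsphericalH25

open Pool.Agent.R655.LI Pool.Agent.V7H25.Asp

/-- (1) A finite 2-complex `K` with one vertex, with `OrderedBy K.Pi n` and `n ≤ 1 - χ(K)`, is
aspherical.  (2) If `K` is a finite subcomplex of a contractible 2-complex then
`1 - χ(K)` is the first Betti number; so `K` is aspherical if `OrderedBy K.Pi (betti K)`.
(3) If `K` is a finite subcomplex of a contractible 2-complex, `π₁(K)` is generated by `betti K + 1`
elements and is left orderable (or only has the property `NoZeroDiv`), then `K` is aspherical. -/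
theorem result :
    (∀ (K : Cx) (n : ℕ), K.IsFin → OrderedBy K.Pi n → Nat.card K.R + n ≤ Nat.card K.V → Asph K) ∧
    (∀ (K L : Cx) (_ : Sub K L), L.Contractible → K.IsFin →
      Nat.card K.V = Nat.card K.R + betti K ∧ (OrderedBy K.Pi (betti K) → Asph K)) ∧
    (∀ (K L : Cx) (_ : Sub K L), L.Contractible → K.IsFin → GenBy K.Pi (betti K + 1) →
      (LeftOrderable K.Pi ∨ NoZeroDiv K.Pi) → Asph K) := by
  refine ⟨fun K n hK h hc => part_one K hK n h hc, fun K L i hL hK => ?_,
    fun K L i hL hK hg h => ?_⟩
  · have hc := part_two K L i hL hK
    exact ⟨hc, fun h => part_one K hK _ h hc.ge⟩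
  · rcases h with h | h
    · exact part_three K L i hL hK (noZero_of_left h) hg
    · exact part_three K L i hL hK h hg

end Pool.Agent.Results.MP_6de9fc_gt.OrderedActionsAsphericalH25
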