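import Pool.Agent.V7H42.LW.Example

/-!
# Labelled oriented trees with exactly one spanning decomposition of smallest weight

A labelled oriented tree (LOT) with the vertices `V` and the edges `E` has the 2-complex `K(L)` of the
presentation with the generators `V` and the relators `ini e · lab e = lab e · ter e` (spines of ribbon
disc complements). It becomes a finite contractible 2-complex if one 2-cell is attached along a
generator, part (3). So `K(L)` and its subcomplexes are subcomplexes of a finite contractible
2-complex, the situation of the question.

Definitions of the starting library (`Pool.Agent.N819.UD.Stm`, `.Main`, `Pool.Agent.N819.LT.Defs`,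
`Pool.Agent.TH625.LOG.Core`, `.Tree`, `.Main`):

* `LOG V E`, `L.Conn` (connected; a tree if it has moreover one vertex more than edges), `L.G` the group
  of the presentation, `L.gen v` the generator of the vertex `v`, `chi L : L.G →* ℤ` the exponent sum,
  `sub L R`: only the 2-cells of `R ⊆ E` are kept; `L.bdry`: the boundary operator `C₂ → C₁` of the
  universal covering (injective if and only if the complex is aspherical); `L.ContractibleWith v`;
* `Mix p q lab S`: the graph with the edges `{p e, lab e}`, `e ∈ S`, and `{q e, lab e}`, `e ∉ S`, is
  connected (so a tree); `Spans p lab S`: the graph with the edges `{p e, lab e}`, `e ∈ S`, has the same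
  components as the graph with the edges `{p e, lab e}`, `e : E`.

Definitions of this hand-in (`Pool.Agent.V7H42.LW.Exch`, `.Core`, `.Main`):

* `Dec p q lab S`: `S` is a spanning decomposition, that is `Mix p q lab S` and `Spans p lab S`;
* `wt w S`: the sum of `w e` over the edges `e ∉ S`;
* `UMin p q lab w`: there is a spanning decomposition whose weight `wt w` is smaller than the weight of
  every other one;
* `KerHom χ ψ`: the real function `ψ` is a homomorphism on the kernel of `χ`; for `χ = chi L` this kernel
  is the commutator subgroup of `L.G`;
* `Colouring L φ`, `φ : ℤ → V → ℝ`: `φ (n+1) (ini e) - φ (n+1) (lab e) = φ n (ter e) - φ n (lab e)`. For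
  example `φ n v = λ ^ n u v`, `u (ter e) = λ u (ini e) + (1 - λ) u (lab e)`, `λ` a real zero of the
  Alexander polynomial; in general these are the real functionals on the Alexander module.

The starting result `UniqueDecomposition` is the case of LOTs with only one spanning decomposition. Here
there may be many of them; it suffices that one has the smallest weight, for some homomorphism of the
commutator subgroup of the group to the real numbers, or some colouring.

Proof. Let `y` be a chain modulo two in the kernel of the boundary operator, and consider its part of
lowest degree. By the equations of the two lowest degrees every `(f, k)` in its support, `f ∉ S`, has a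
successor `(f', k x x'⁻¹)`, `x`, `x'` the generators of the labels of `f` and of an edge `b ∈ S` which are
related in the exchange graph of `S`. The support is finite, so there is a closed walk; the product
of its steps `x x'⁻¹` is `1`, so its cost with respect to `ψ` is zero. Along a closed walk of
nonpositive cost with the smallest number of steps `S` can be exchanged (weighted intersection of two
binary matroids), the result is another spanning decomposition whose weight is not larger.
-/

set_option autoImplicit false

namespace Pool.Agent.Results.MP_6de9fc_gt.WeightedDecompositionsH42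

open Pool.Agent.TH625.LOG Pool.Agent.N819.UD Pool.Agent.N819.LT Pool.Agent.V7H42.LW

/-- All subcomplexes of `K(L)` with all the 1-cells are aspherical: their boundary operators
`C₂ → C₁` of the universal coverings are injective. -/
def AllAspherical {V E : Type} (L : LOG V E) : Prop :=
  ∀ (R : Set E) (c : (R × (sub L R).G) →₀ ℤ), (sub L R).bdry c = 0 → c = 0

/-- No edge is labelled by one of its ends, two edges with the same initial or the same terminal
vertex have different labels, and every vertex with at most one edge is a label. -/
def ReducedLOT {V E : Type} (L : LOG V E) : Prop :=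
  (∀ e, L.lab e ≠ L.ini e ∧ L.lab e ≠ L.ter e) ∧
    (∀ e f, e ≠ f → L.lab e = L.lab f → L.ini e ≠ L.ini f ∧ L.ter e ≠ L.ter f) ∧
    ∀ v, (∀ e f, (L.ini e = v ∨ L.ter e = v) → (L.ini f = v ∨ L.ter f = v) → e = f) →
      ∃ e, L.lab e = v

open Classical in
/-- There is no set `W` of vertices, neither all of them nor a single one, such that the edges with
both ends and the label in `W` form a tree on `W`, that is, their number is the number of the vertices
of `W` minus one (for subgraphs of a tree). -/
def PrimeLOT {V E : Type} [Fintype V] [Fintype E] (L : LOG V E) : Prop :=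
  ∀ W : Finset V, 2 ≤ W.card →
    (Finset.univ.filter fun e => L.ini e ∈ W ∧ L.ter e ∈ W ∧ L.lab e ∈ W).card + 1 = W.card →
      W = Finset.univ

theorem result :
    -- (1) weights given by a homomorphism of the commutator subgroup to the real numbers
    (∀ (V E : Type) [Fintype V] [Fintype E] [DecidableEq V] [DecidableEq E] (L : LOG V E),
      Fintype.card V = Fintype.card E + 1 → ∀ ψ : L.G → ℝ, KerHom (chi L) ψ → ∀ r : V,
        (UMin L.ini L.ter L.lab (fun e => ψ (L.gen (L.lab e) * (L.gen r)⁻¹)) ∨
          UMin L.ter L.ini L.lab (fun e => ψ ((L.gen (L.lab e))⁻¹ * L.gen r))) →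
        AllAspherical L) ∧
    -- (2) weights given by a colouring
    (∀ (V E : Type) [Fintype V] [Fintype E] [DecidableEq V] [DecidableEq E] (L : LOG V E),
      Fintype.card V = Fintype.card E + 1 → ∀ φ : ℤ → V → ℝ, Colouring L φ → ∀ n : ℤ,
        (UMin L.ini L.ter L.lab (fun e => φ n (L.lab e)) ∨
          UMin L.ter L.ini L.lab (fun e => φ n (L.lab e))) →
        AllAspherical L) ∧
    -- (3) the complexes of labelled oriented trees are subcomplexes of contractible complexes
    (∀ (V E : Type) [Fintype V] [Fintype E] [DecidableEq V] [DecidableEq E] (L : LOG V E),
      L.Conn → Fintype.card V = Fintype.card E + 1 → ∀ v : V, L.ContractibleWith v) ∧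
    -- (4) a reduced prime labelled oriented tree with a colouring as in (2), which has several spanning
    -- decompositions, also after the exchange of the initial and the terminal vertices (it is a path
    -- with a repeated label, the Alexander polynomial is `t² - t + 1`)
    (∃ L : LOG (Fin 8) (Fin 7), L.Conn ∧ ReducedLOT L ∧ PrimeLOT L ∧
      (¬ ∃! S : Set (Fin 7), Dec L.ini L.ter L.lab S) ∧
      (¬ ∃! S : Set (Fin 7), Dec L.ter L.ini L.lab S) ∧
      ∃ φ : ℤ → Fin 8 → ℝ, Colouring L φ ∧ UMin L.ini L.ter L.lab (fun e => φ 0 (L.lab e))) := by
  refine ⟨?_, ?_, ?_, ?_⟩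
  · intro V E _ _ _ _ L hcard ψ hψ r h R c hc
    rcases h with h | h
    · refine inj_ini L hcard ψ hψ _ (fun e f => ?_) h R c hc
      have e1 : L.gen (L.lab e) * (L.gen r)⁻¹ = (L.gen (L.lab e) * (L.gen (L.lab f))⁻¹) *
          (L.gen (L.lab f) * (L.gen r)⁻¹) := by group
      have hk : ∀ v u, chi L (L.gen v * (L.gen u)⁻¹) = 1 := by
        intro v u
        rw [map_mul, map_inv, chi_gen, chi_gen, mul_inv_cancel]
      rw [e1, hψ _ _ (hk _ _) (hk _ _)]
      ring
    · refine inj_ter L hcard ψ hψ _ (fun e f => ?_) h R c hc
      have e1 : (L.gen (L.lab e))⁻¹ * L.gen r = ((L.gen (L.lab e))⁻¹ * L.gen (L.lab f)) *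
          ((L.gen (L.lab f))⁻¹ * L.gen r) := by group
      have hk : ∀ v u, chi L ((L.gen v)⁻¹ * L.gen u) = 1 := by
        intro v u
        rw [map_mul, map_inv, chi_gen, chi_gen, inv_mul_cancel]
      rw [e1, hψ _ _ (hk _ _) (hk _ _)]
      ring
  · intro V E _ _ _ _ L hcard φ hφ n h R c hc
    rcases h with h | h
    · exact inj_ini L hcard (psi L φ hφ (n + 1)) (psi_kerHom L φ hφ (n + 1)) _
        (fun e f => psi_ini L φ hφ n _ _) h R c hc
    · refine inj_ter L hcard (fun g => - psi L φ hφ n g) ?_ _ (fun e f => ?_) h R c hc
      · intro g k hg hk
        beta_reduce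
        rw [psi_kerHom L φ hφ n g k hg hk]
        ring
      · rw [psi_ter]
        ring
  · intro V E _ _ _ _ L hL hcard v
    exact contractibleWith L hL hcard v
  · refine ⟨exL, ?_, ex_reduced, ?_, not_unique_ini, not_unique_ter, exPhi, exPhi_col, umin_ex⟩
    · exact exL_conn
    · intro W h1 h2
      refine ex_prime W h1 ?_
      convert h2

end Pool.Agent.Results.MP_6de9fc_gt.WeightedDecompositionsH42
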